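import Pool.Agent.R498.MP.LinC

set_option autoImplicit false

/-!
# Runs of consecutive almost twin primes in one residue class

An almost twin prime is here a prime `p` such that `p + 2` has a bounded number of prime factors,
all of them larger than a fixed power of `p`. There are arbitrarily long runs of consecutive almost
twin primes `p` which are all congruent modulo 4 (or modulo any given number), of bounded diameter,
and the same pattern is repeated along progressions with small difference.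
-/

namespace Pool.Agent.Results.MP_74f661_nt.EqualResidueRuns

open Filter

/-- `p` is prime and `p + 2` has at most `r` prime factors, counted with multiplicity, all of them
at least `w`. -/
def AlmostTwin (r : ℕ) (w : ℝ) (p : ℕ) : Prop :=
  p.Prime ∧ (p + 2).primeFactorsList.length ≤ r ∧ ∀ q : ℕ, q.Prime → q ∣ p + 2 → w ≤ q

/-- The almost twin primes in the interval `[x, x + C]` are exactly the numbers `x + h`, `h ∈ H`. -/
def Pattern (r : ℕ) (w : ℝ) (C : ℕ) (H : Finset ℕ) (x : ℕ) : Prop :=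
  ∀ y ≤ C, AlmostTwin r w (x + y) ↔ y ∈ H

theorem adm (q : ℕ) (hq : q.Prime) : ∃ n : ℕ, ¬ q ∣ n ∧ ∀ i : Fin 1, ¬ q ∣ n + (fun _ : Fin 1 => 2) i := by
  by_cases h3 : q = 3
  · refine ⟨2, ?_, fun _ => ?_⟩ <;> subst h3 <;> norm_num
  · refine ⟨1, ?_, fun _ => ?_⟩
    · intro h
      exact hq.one_lt.ne' (Nat.dvd_one.1 h)
    · intro h
      have h1 : q ∣ 3 := h
      exact h3 ((Nat.prime_dvd_prime_iff_eq hq Nat.prime_three).1 h1)

/-- **The pattern form.** -/
theorem patterns (q c : ℕ) (hq : Squarefree q) (hc : Nat.Coprime (c * (c + 2)) q) (m : ℕ)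
    (hm : 1 ≤ m) :
    ∃ (K r : ℕ) (δ : ℝ), 0 < δ ∧ ∀ S : Finset ℕ, K ≤ S.card →
      (∀ s ∈ S, ∀ s' ∈ S, s ≡ s' [MOD 3]) → ∀ l : ℕ, ∃ B : ℕ,
      ∀ᶠ N : ℕ in atTop, ∃ H ⊆ S, m ≤ H.card ∧ ∃ n d : ℕ, 1 ≤ d ∧ (d : ℝ) ≤ Real.log N ^ B ∧
      ∀ j < l, N < n + j * d ∧ n + j * d + S.sup id ≤ 2 * N ∧
        Pattern r ((N : ℝ) ^ δ) (S.sup id) H (n + j * d) ∧
        ∀ h ∈ H, n + j * d + h ≡ c [MOD q] := by
  obtain ⟨K, r, δ, hδ, hmain⟩ := Pool.Agent.R498.MP.tup_runsC 1 (fun _ => 2) adm q c hq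
    (by simpa using hc) m
  refine ⟨K, r, δ, hδ, fun S hS h3 l => ?_⟩
  obtain ⟨B, hB⟩ := hmain S hS l
  refine ⟨B, ?_⟩
  have hlarge : ∀ᶠ N : ℕ in atTop, (4 : ℝ) ≤ (N : ℝ) ^ δ :=
    ((tendsto_rpow_atTop hδ).comp tendsto_natCast_atTop_atTop).eventually_ge_atTop _
  filter_upwards [hB, hlarge, eventually_ge_atTop 3] with N hN h4 hN3
  obtain ⟨H, hH, hHm, n, d, hd1, hd2, hj⟩ := hN
  refine ⟨H, hH, hHm, n, d, hd1, hd2, fun j hjl => ?_⟩
  obtain ⟨g1, g2, g3, g4⟩ := hj j hjl
  refine ⟨g1, g2, fun y hy => ⟨fun hT => ?_, fun hyH => ?_⟩, fun h hh => (g3 h hh).2.1⟩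
  · by_contra hyH
    obtain ⟨hp, hT2, hT3⟩ := hT
    refine g4 y hy hyH (fun s hs i hys => ?_) hp
    obtain ⟨h, hh⟩ : H.Nonempty := Finset.card_pos.1 (by omega)
    obtain ⟨p1, -, p2⟩ := g3 h hh
    obtain ⟨-, p3⟩ := p2 0
    -- the residues modulo 3
    have e1 : ¬ 3 ∣ n + j * d + h := by
      intro hd3
      have := (Nat.prime_dvd_prime_iff_eq Nat.prime_three p1).1 hd3
      omega
    have e2 : ¬ 3 ∣ n + j * d + h + 2 := by
      intro hd3
      have := p3 3 Nat.prime_three hd3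
      push_cast at this
      linarith
    have e3 : ¬ 3 ∣ n + j * d + y + 2 := by
      intro hd3
      have := hT3 3 Nat.prime_three hd3
      push_cast at this
      linarith
    have e4 : s % 3 = h % 3 := h3 s hs h (hH hh)
    have hys' : y = s + 2 := hys
    omega
  · obtain ⟨p1, -, p2⟩ := g3 y hyH
    exact ⟨p1, (p2 0).1, (p2 0).2⟩

/-- the first `m` elements of a finite set of natural numbers, moved to `0` -/
theorem first (H : Finset ℕ) (m Q : ℕ) (hm : 1 ≤ m) (hH : m ≤ H.card)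
    (hQ : ∀ h ∈ H, Q ∣ h) :
    ∃ (a : ℕ) (H' : Finset ℕ), a ∈ H ∧ H'.card = m ∧ 0 ∈ H' ∧ (∀ h ∈ H', Q ∣ h) ∧
      (∀ h ∈ H', a + h ∈ H) ∧ ∀ y ≤ H'.sup id, a + y ∈ H → y ∈ H' := by
  classical
  obtain ⟨G, hG, hGc, hGl⟩ : ∃ G ⊆ H, G.card = m ∧ ∀ x ∈ H, x ∉ G → ∀ g ∈ G, g < x := by
    clear hQ
    induction m, hm using Nat.le_induction with
    | base =>
      have hne : H.Nonempty := Finset.card_pos.1 (by omega)
      refine ⟨{H.min' hne}, by simpa using H.min'_mem hne, by simp, ?_⟩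
      intro x hx hxG g hg
      rw [Finset.mem_singleton] at hg hxG
      subst hg
      exact lt_of_le_of_ne (H.min'_le x hx) (Ne.symm hxG)
    | succ k hk ih =>
      obtain ⟨G, hG, hGc, hGl⟩ := ih (by omega)
      have hne : (H \ G).Nonempty := by
        rw [← Finset.card_pos, Finset.card_sdiff_of_subset hG]
        omega
      have hmem := (H \ G).min'_mem hne
      rw [Finset.mem_sdiff] at hmem
      refine ⟨insert ((H \ G).min' hne) G, ?_, ?_, ?_⟩
      · intro x hx
        rcases Finset.mem_insert.1 hx with rfl | hx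
        · exact hmem.1
        · exact hG hx
      · rw [Finset.card_insert_of_notMem hmem.2, hGc]
      · intro x hx hxG g hg
        rw [Finset.mem_insert, not_or] at hxG
        rcases Finset.mem_insert.1 hg with rfl | hg
        · exact lt_of_le_of_ne ((H \ G).min'_le x (Finset.mem_sdiff.2 ⟨hx, hxG.2⟩)) (Ne.symm hxG.1)
        · exact hGl x hx hxG.2 g hg
  have hne : G.Nonempty := Finset.card_pos.1 (by omega)
  have hmin := G.min'_mem hne
  refine ⟨G.min' hne, G.image (fun g => g - G.min' hne), hG hmin, ?_, ?_, ?_, ?_, ?_⟩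
  · rw [Finset.card_image_of_injOn, hGc]
    intro x hx y hy hxy
    have h1 := G.min'_le x hx
    have h2 := G.min'_le y hy
    have h3 : x - G.min' hne = y - G.min' hne := hxy
    omega
  · exact Finset.mem_image.2 ⟨_, hmin, Nat.sub_self _⟩
  · intro h hh
    obtain ⟨g, hg, rfl⟩ := Finset.mem_image.1 hh
    exact Nat.dvd_sub (hQ g (hG hg)) (hQ _ (hG hmin))
  · intro h hh
    obtain ⟨g, hg, rfl⟩ := Finset.mem_image.1 hh
    have h1 := G.min'_le g hg
    have h2 : G.min' hne + (g - G.min' hne) = g := by omega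
    rw [h2]
    exact hG hg
  · intro y hy hyH
    by_cases hyG : G.min' hne + y ∈ G
    · refine Finset.mem_image.2 ⟨_, hyG, ?_⟩
      show G.min' hne + y - G.min' hne = y
      omega
    · have h1 := hGl _ hyH hyG
      have h2 : (G.image (fun g => g - G.min' hne)).Nonempty := hne.image _
      obtain ⟨z, hz, hz2⟩ := Finset.exists_mem_eq_sup _ h2 id
      obtain ⟨g, hg, rfl⟩ := Finset.mem_image.1 hz
      rw [hz2] at hy
      have h3 := h1 g hg
      have h4 : y ≤ g - G.min' hne := hy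
      have h5 := G.min'_le g hg
      omega

/-- **Runs of consecutive almost twin primes in one residue class.** Let `q` be squarefree and let
`c (c + 2)` be coprime to `q` (for instance `q = 1`), and let `m ≥ 1`. There are `r` and `δ > 0` such
that for every `Q ≥ 1` there is `C`, and for every `l` there is `B`, with the following property for
all large `N`. There are a set `H` of `m` multiples of `Q`, with least element `0` and largest element
at most `C`, and an `l`-term arithmetic progression in `(N, 2 N]` with difference at most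
`(log N) ^ B`, such that for all its terms `x` the primes `p` in `[x, x + max H]` for which `p + 2` has
at most `r` prime factors, all at least `N ^ δ`, are exactly the `m` numbers `x + h`, `h ∈ H`. So
these are `m` consecutive almost twin primes; they are all congruent modulo `Q` (for example modulo
4), and they are all `≡ c` modulo `q`. -/
theorem result (q c : ℕ) (hq : Squarefree q) (hc : Nat.Coprime (c * (c + 2)) q) (m : ℕ)
    (hm : 1 ≤ m) :
    ∃ (r : ℕ) (δ : ℝ), 0 < δ ∧ ∀ Q : ℕ, 1 ≤ Q → ∃ C : ℕ, ∀ l : ℕ, ∃ B : ℕ,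
      ∀ᶠ N : ℕ in atTop, ∃ H : Finset ℕ, H.card = m ∧ 0 ∈ H ∧ (∀ h ∈ H, Q ∣ h ∧ h ≤ C) ∧
        ∃ n d : ℕ, 1 ≤ d ∧ (d : ℝ) ≤ Real.log N ^ B ∧
          ∀ j < l, N < n + j * d ∧ n + j * d + H.sup id ≤ 2 * N ∧
            Pattern r ((N : ℝ) ^ δ) (H.sup id) H (n + j * d) ∧
            ∀ h ∈ H, n + j * d + h ≡ n + j * d [MOD Q] ∧ n + j * d + h ≡ c [MOD q] := by
  classical
  obtain ⟨K, r, δ, hδ, hmain⟩ := patterns q c hq hc m hm
  refine ⟨r, δ, hδ, fun Q hQ => ?_⟩
  obtain ⟨S, hS⟩ : ∃ S : Finset ℕ, S = (Finset.range K).image (fun i => 3 * Q * i) := ⟨_, rfl⟩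
  have hScard : K ≤ S.card := by
    rw [hS, Finset.card_image_of_injective, Finset.card_range]
    intro a b hab
    have h1 : 3 * Q * a = 3 * Q * b := hab
    exact Nat.eq_of_mul_eq_mul_left (by omega) h1
  have hSQ : ∀ s ∈ S, 3 * Q ∣ s := by
    intro s hs
    rw [hS] at hs
    obtain ⟨i, -, rfl⟩ := Finset.mem_image.1 hs
    exact Dvd.intro _ rfl
  have hS3 : ∀ s ∈ S, ∀ s' ∈ S, s ≡ s' [MOD 3] := by
    intro s hs s' hs'
    have h1 : 3 ∣ s := (Dvd.intro _ rfl).trans (hSQ s hs)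
    have h2 : 3 ∣ s' := (Dvd.intro _ rfl).trans (hSQ s' hs')
    exact (Nat.modEq_zero_iff_dvd.2 h1).trans (Nat.modEq_zero_iff_dvd.2 h2).symm
  refine ⟨S.sup id, fun l => ?_⟩
  obtain ⟨B, hB⟩ := hmain S hScard hS3 l
  refine ⟨B, ?_⟩
  filter_upwards [hB] with N hN
  obtain ⟨H, hH, hHm, n, d, hd1, hd2, hj⟩ := hN
  obtain ⟨a, H', ha, hc', h0, hQ', hin, hout⟩ := first H m (3 * Q) hm hHm
    (fun h hh => hSQ h (hH hh))
  have hsup : ∀ h ∈ H', a + h ≤ S.sup id := fun h hh => Finset.le_sup (f := id) (hH (hin h hh))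
  have hsup' : a + H'.sup id ≤ S.sup id := by
    obtain ⟨z, hz, hz2⟩ := Finset.exists_mem_eq_sup _ (⟨0, h0⟩ : H'.Nonempty) id
    rw [hz2]
    exact hsup z hz
  refine ⟨H', hc', h0, fun h hh => ⟨(Dvd.intro_left _ rfl).trans (hQ' h hh), ?_⟩, a + n, d, hd1, hd2,
    fun j hjl => ?_⟩
  · have := hsup h hh
    omega
  · obtain ⟨g1, g2, g3, g4⟩ := hj j hjl
    refine ⟨by omega, by omega, fun y hy => ?_, fun h hh => ⟨?_, ?_⟩⟩
    · have e : a + n + j * d + y = n + j * d + (a + y) := by ring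
      rw [e, g3 (a + y) (by omega)]
      exact ⟨hout y hy, hin y⟩
    · have h1 : Q ∣ h := (Dvd.intro_left _ rfl).trans (hQ' h hh)
      have h2 := (Nat.modEq_zero_iff_dvd.2 h1).add_left (a + n + j * d)
      rwa [add_zero] at h2
    · have e : a + n + j * d + h = n + j * d + (a + h) := by ring
      rw [e]
      exact g4 _ (hin h hh)

end Pool.Agent.Results.MP_74f661_nt.EqualResidueRuns
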